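import Pool.Agent.H69.LQ.Lib

/-!
# MP_8f7db2_an, row JC: the identity of Jacobi
-/

set_option autoImplicit false

open MeasureTheory Metric Set
open scoped ENNReal
open Pool.Agent.H85.LK (E adm lam Ann)
open Pool.Agent.H69.LQ

namespace Pool.Agent.H98.LQ

theorem scaled {N n : ℕ} {L μ r : ℝ} (hμ : 0 < μ) (hr : 0 < r)
    (h : HasDerivAt (fun r => r ^ (N - 1) * dph N L n r)
      ((μ * r) ^ (N - 1) * ((n * (n + N - 2) / (μ * r) ^ 2 - L) * ph N L n (μ * r))) (μ * r)) :
    HasDerivAt (fun r => r ^ (N - 1) * (μ * dph N L n (μ * r)))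
      (r ^ (N - 1) * ((n * (n + N - 2) / r ^ 2 - μ ^ 2 * L) * ph N L n (μ * r))) r := by
  have h1 : HasDerivAt (fun r : ℝ => μ * r) μ r := by
    simpa using (hasDerivAt_id r).const_mul μ
  have h2 := (h.comp r h1).const_mul (μ / μ ^ (N - 1))
  refine (h2.congr_deriv ?_).congr_of_eventuallyEq (Filter.Eventually.of_forall fun x => ?_)
  · field_simp
    rw [mul_pow]
    ring
  · change x ^ (N - 1) * (μ * dph N L n (μ * x)) =
      μ / μ ^ (N - 1) * ((μ * x) ^ (N - 1) * dph N L n (μ * x))
    rw [mul_pow]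
    field_simp

theorem pf_JC (hPH : T_PH) : T_JC := by
  intro N n L μ ε a f f' hN hμ hε hεa hph hf
  obtain ⟨hP1, hP2, hP3⟩ := hPH N L hN
  have hdr : ∀ r, ε ≤ r → r ≤ a → HasDerivAt (fun r => dd N L n μ r * f r ^ 2)
      (r ^ (N - 1) * ((n * (n + N - 2) / r ^ 2 - μ ^ 2 * L) * f r ^ 2 +
        2 * (μ * dph N L n (μ * r) / ph N L n (μ * r)) * f r * f' r -
        (μ * dph N L n (μ * r) / ph N L n (μ * r)) ^ 2 * f r ^ 2)) r := by
    intro r h1 h2
    have hr : 0 < r := lt_of_lt_of_le hε h1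
    have hne := hph r h1 h2
    have d1 := scaled hμ hr (hP3 n (μ * r) (mul_pos hμ hr))
    have d2 : HasDerivAt (fun r => ph N L n (μ * r)) (μ * dph N L n (μ * r)) r := by
      have h3 : HasDerivAt (fun r : ℝ => μ * r) μ r := by
        simpa using (hasDerivAt_id r).const_mul μ
      have h4 := (hP1 n (μ * r)).comp r h3
      refine h4.congr_deriv ?_
      ring
    have d3 := (hf.1 r).pow 2
    have d4 := (d1.div d2 hne).mul d3
    refine (d4.congr_deriv ?_).congr_of_eventuallyEq (Filter.Eventually.of_forall fun x => ?_)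
    · have e1 : ((fun r => r ^ (N - 1) * (μ * dph N L n (μ * r))) / fun r => ph N L n (μ * r)) r =
          r ^ (N - 1) * (μ * dph N L n (μ * r)) / ph N L n (μ * r) := rfl
      rw [e1]
      have e2 : (f ^ 2) r = f r ^ 2 := rfl
      simp only [e2, Nat.cast_ofNat, pow_one, Nat.reduceSub]
      generalize dph N L n (μ * r) = D
      generalize ((n : ℝ) * (n + N - 2) / r ^ 2 - μ ^ 2 * L) = q
      generalize hPd : ph N L n (μ * r) = P
      rw [hPd] at hne
      generalize r ^ (N - 1) = R
      field_simp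
      ring
    · change dd N L n μ x * f x ^ 2 =
        (x ^ (N - 1) * (μ * dph N L n (μ * x)) / ph N L n (μ * x)) * f x ^ 2
      unfold dd
      ring
  have hfc : Continuous f := continuous_iff_continuousAt.2 fun x => (hf.1 x).continuousAt
  refine intervalIntegral.sub_le_integral_of_hasDeriv_right_of_le hεa
    (g := fun r => dd N L n μ r * f r ^ 2) ?_ (fun r hr => (hdr r hr.1.le hr.2.le).hasDerivWithinAt)
    ?_ ?_
  · intro r hr
    exact (hdr r hr.1 hr.2).continuousAt.continuousWithinAt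
  · apply ContinuousOn.integrableOn_Icc
    have hne : ∀ r ∈ Icc ε a, r ^ 2 ≠ 0 := fun r hr =>
      pow_ne_zero 2 (ne_of_gt (lt_of_lt_of_le hε hr.1))
    refine ContinuousOn.mul (continuousOn_id.pow _) (ContinuousOn.add (hf.2.continuousOn.pow 2) ?_)
    refine ContinuousOn.mul (ContinuousOn.sub ?_ continuousOn_const) (hfc.continuousOn.pow 2)
    exact ContinuousOn.div continuousOn_const (continuousOn_id.pow 2) hne
  · intro r hr
    have hr0 : 0 < r := lt_trans hε hr.1
    apply mul_le_mul_of_nonneg_left _ (by positivity)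
    nlinarith [sq_nonneg (f' r - μ * dph N L n (μ * r) / ph N L n (μ * r) * f r)]

end Pool.Agent.H98.LQ
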